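import Pool.Agent.Lib.MP_dcf9ac_co.H69.Cliques

/-!
# Minimum 2-density of graphs with bounded independence number

For `k = 3` the equality `M (k (r - 1)) r = (k + 1) / 2` holds exactly for `r ≤ 4`.
-/

set_option autoImplicit false

namespace Pool.Agent.Results.MP_dcf9ac_co.ThresholdForTriangles

/-- The 2-density: the maximum of `(e(H) - 1) / (v(H) - 2)` over the subgraphs `H` with at least
three vertices. -/
noncomputable def m2 {V : Type} (G : SimpleGraph V) : ℝ :=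
  sSup {x : ℝ | ∃ H : G.Subgraph, 3 ≤ H.verts.ncard ∧
    x = ((H.edgeSet.ncard : ℝ) - 1) / ((H.verts.ncard : ℝ) - 2)}

/-- The least 2-density of a graph on `m` vertices with independence number at most `r - 1`. -/
noncomputable def M (m r : ℕ) : ℝ :=
  sInf {x : ℝ | ∃ G : SimpleGraph (Fin m), G.indepNum ≤ r - 1 ∧ x = m2 G}

theorem dens_finite {m : ℕ} (G : SimpleGraph (Fin m)) : (MP_dcf9ac.H69.dens G).Finite := by
  have h : MP_dcf9ac.H69.dens G ⊆ Set.range fun H : G.Subgraph =>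
      ((H.edgeSet.ncard : ℝ) - 1) / ((H.verts.ncard : ℝ) - 2) := by
    rintro x ⟨H, -, rfl⟩
    exact ⟨H, rfl⟩
  exact (Set.finite_range _).subset h

theorem dens_nonempty {m : ℕ} (hm : 3 ≤ m) (G : SimpleGraph (Fin m)) :
    (MP_dcf9ac.H69.dens G).Nonempty := by
  refine ⟨_, ⊤, ?_, rfl⟩
  rw [SimpleGraph.Subgraph.verts_top, Set.ncard_univ, Nat.card_eq_fintype_card, Fintype.card_fin]
  exact hm

theorem m2_le {m : ℕ} (hm : 3 ≤ m) (G : SimpleGraph (Fin m)) (c : ℝ)
    (h : ∀ x ∈ MP_dcf9ac.H69.dens G, x ≤ c) : m2 G ≤ c :=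
  csSup_le (dens_nonempty hm G) h

theorem le_m2 {m : ℕ} (G : SimpleGraph (Fin m)) {x : ℝ} (h : x ∈ MP_dcf9ac.H69.dens G) :
    x ≤ m2 G :=
  le_csSup (dens_finite G).bddAbove h

theorem M_le {m r : ℕ} (G : SimpleGraph (Fin m)) (h : G.indepNum ≤ r - 1) : M m r ≤ m2 G := by
  refine csInf_le ?_ ⟨G, h, rfl⟩
  have hfin : {x : ℝ | ∃ G : SimpleGraph (Fin m), G.indepNum ≤ r - 1 ∧ x = m2 G}.Finite := by
    apply (Set.finite_range fun G : SimpleGraph (Fin m) => m2 G).subset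
    rintro x ⟨G, -, rfl⟩
    exact ⟨G, rfl⟩
  exact hfin.bddBelow

/-- the known upper bound -/
theorem M_le_cliques {k r : ℕ} (hk : 3 ≤ k) (hr : 2 ≤ r) :
    M (k * (r - 1)) r ≤ ((k : ℝ) + 1) / 2 := by
  refine (M_le (MP_dcf9ac.H69.cliques k (r - 1))
    (MP_dcf9ac.H69.cliques_indep k (r - 1) (by omega))).trans ?_
  apply m2_le
  · calc 3 = 3 * 1 := rfl
      _ ≤ k * (r - 1) := Nat.mul_le_mul hk (by omega)
  · exact MP_dcf9ac.H69.cliques_dens k (r - 1) (by omega)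

/-- the bound from the chain of cliques -/
theorem M_le_chain {k r : ℕ} (hk : 3 ≤ k) (hr : k + 1 ≤ r) :
    M (k * (r - 1)) r ≤
      ((k : ℝ) + 1) / 2 - ((r : ℝ) - 1 - k) / ((k : ℝ) * ((r : ℝ) - 1) - 2) := by
  have : NeZero (r - 1) := ⟨by omega⟩
  refine (M_le (MP_dcf9ac.H69.chainFin k (r - 1))
    (MP_dcf9ac.H69.chainFin_indep k (r - 1) (by omega))).trans ?_
  apply m2_le
  · calc 3 = 3 * 1 := rfl
      _ ≤ k * (r - 1) := Nat.mul_le_mul hk (by omega)
  · have h := MP_dcf9ac.H69.chainFin_dens k (r - 1) hk (by omega)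
    have hc : ((r - 1 : ℕ) : ℝ) = (r : ℝ) - 1 := by
      rw [Nat.cast_sub (by omega)]
      simp
    rw [hc] at h
    exact h

theorem result (r : ℕ) (hr : 2 ≤ r) :
    M (3 * (r - 1)) r = ((3 : ℝ) + 1) / 2 ↔ r ≤ 4 := by
  constructor
  · intro h
    by_contra hc
    have h1 := M_le_chain (k := 3) le_rfl (show 3 + 1 ≤ r by omega)
    rw [h] at h1
    have hr' : (5 : ℝ) ≤ r := by exact_mod_cast (show 5 ≤ r by omega)
    have h2 : 0 < ((r : ℝ) - 1 - (3 : ℕ)) / (((3 : ℕ) : ℝ) * ((r : ℝ) - 1) - 2) :=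
      div_pos (by push_cast; linarith) (by push_cast; linarith)
    push_cast at h1 h2
    linarith
  · intro h4
    apply le_antisymm
    · have := M_le_cliques (k := 3) le_rfl hr
      exact_mod_cast this
    · apply le_csInf
      · exact ⟨_, MP_dcf9ac.H69.cliques 3 (r - 1),
          MP_dcf9ac.H69.cliques_indep 3 (r - 1) (by omega), rfl⟩
      · rintro x ⟨G, hG, rfl⟩
        obtain ⟨x, y, z, hxy, hxz, hyz⟩ :=
          MP_dcf9ac.H69.exists_tri (r - 1) (by omega) (by omega) G hG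
        obtain ⟨d, hd, hd2⟩ := MP_dcf9ac.H69.exists_triangle_dens G hxy hxz hyz
        have := le_m2 G hd
        linarith

end Pool.Agent.Results.MP_dcf9ac_co.ThresholdForTriangles
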